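import Mathlib

/-!
# Maximum nullity and zero forcing number of the repeated Fano plane graph
-/

namespace Pool.Agent.R372.ZF

open Matrix Module

/-- `A` is a matrix of the family `S(G)`: symmetric, real, and the off-diagonal entry `A i j`
is nonzero exactly when `i` and `j` are adjacent (no condition on the diagonal). -/
def InS {V : Type} (G : SimpleGraph V) (A : Matrix V V ℝ) : Prop :=
  A.IsSymm ∧ ∀ i j, i ≠ j → (A i j ≠ 0 ↔ G.Adj i j)

/-- The nullity of a square matrix: the dimension of its kernel. -/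
noncomputable def nullity {V : Type} [Fintype V] {F : Type} [Field F] (A : Matrix V V F) : ℕ :=
  finrank F (LinearMap.ker A.mulVecLin)

/-- The maximum nullity `M(G)`: the largest nullity of a matrix in `S(G)`. -/
noncomputable def maxNullity {V : Type} [Fintype V] (G : SimpleGraph V) : ℕ :=
  sSup {k | ∃ A : Matrix V V ℝ, InS G A ∧ nullity A = k}

/-- The vertices that are eventually filled when `B` is filled first and the colour change rule
(a filled vertex `u`, all of whose neighbours except `w` are filled, fills its neighbour `w`)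
is applied repeatedly. -/
inductive Filled {V : Type} (G : SimpleGraph V) (B : Finset V) : V → Prop
  | base (v : V) : v ∈ B → Filled G B v
  | force (u w : V) : Filled G B u → G.Adj u w → (∀ v, G.Adj u v → v ≠ w → Filled G B v) →
      Filled G B w

/-- `B` is a zero forcing set. -/
def IsZeroForcing {V : Type} (G : SimpleGraph V) (B : Finset V) : Prop :=
  ∀ v, Filled G B v

/-- The zero forcing number `Z(G)`: the smallest size of a zero forcing set. -/
noncomputable def zeroForcingNumber {V : Type} (G : SimpleGraph V) : ℕ :=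
  sInf {k | ∃ B : Finset V, IsZeroForcing G B ∧ B.card = k}

/-! ### General lemmas -/

theorem ker_vanish {V : Type} [Fintype V] [DecidableEq V] {F : Type} [Field F]
    (G : SimpleGraph V) (B : Finset V)
    (A : Matrix V V F) (hA : ∀ i j, i ≠ j → (A i j ≠ 0 ↔ G.Adj i j))
    (x : V → F) (hx : A.mulVec x = 0) (hB : ∀ v ∈ B, x v = 0) (v : V) (hv : Filled G B v) :
    x v = 0 := by
  induction hv with
  | base v h => exact hB v h
  | force u w hu huw hall ihu ihall =>
    have h := congrFun hx u
    rw [Matrix.mulVec, dotProduct] at h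
    rw [Finset.sum_eq_single w] at h
    · have hne : A u w ≠ 0 := (hA u w huw.ne).2 huw
      rcases mul_eq_zero.1 h with h | h
      · exact absurd h hne
      · exact h
    · intro v _ hvw
      by_cases huv : u = v
      · subst huv; rw [ihu, mul_zero]
      · by_cases hadj : G.Adj u v
        · rw [ihall v hadj hvw, mul_zero]
        · have : A u v = 0 := by
            by_contra hne
            exact hadj ((hA u v huv).1 hne)
          rw [this, zero_mul]
    · intro h; exact absurd (Finset.mem_univ w) h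

theorem nullity_le_card {V : Type} [Fintype V] [DecidableEq V] {F : Type} [Field F]
    (G : SimpleGraph V) (B : Finset V) (hZ : IsZeroForcing G B)
    (A : Matrix V V F) (hA : ∀ i j, i ≠ j → (A i j ≠ 0 ↔ G.Adj i j)) :
    nullity A ≤ B.card := by
  let φ : LinearMap.ker A.mulVecLin →ₗ[F] (B → F) :=
    (LinearMap.pi fun b : B => LinearMap.proj (b : V)) ∘ₗ (LinearMap.ker A.mulVecLin).subtype
  have hinj : Function.Injective φ := by
    rw [← LinearMap.ker_eq_bot, LinearMap.ker_eq_bot']
    intro x hx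
    apply Subtype.ext
    funext v
    have h1 : A.mulVec (x : V → F) = 0 := by
      have := x.2
      rwa [LinearMap.mem_ker, Matrix.mulVecLin_apply] at this
    refine ker_vanish G B A hA x h1 ?_ v (hZ v)
    intro b hb
    have := congrFun hx ⟨b, hb⟩
    simpa [φ] using this
  have := LinearMap.finrank_le_finrank_of_injective hinj
  simpa [nullity] using this

theorem rank_add_nullity {V : Type} [Fintype V] [DecidableEq V] {F : Type} [Field F]
    (A : Matrix V V F) : A.rank + nullity A = Fintype.card V := by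
  have := LinearMap.finrank_range_add_finrank_ker A.mulVecLin
  simpa [Matrix.rank, nullity] using this

/-- `rank [[0, B], [C, D]] ≥ rank B + rank C`. -/
theorem rank_fromBlocks_ge {m n : Type} [Fintype m] [Fintype n] [DecidableEq m] [DecidableEq n]
    {F : Type} [Field F] (B : Matrix m n F) (C : Matrix n m F) (D : Matrix n n F) :
    B.rank + C.rank ≤ (Matrix.fromBlocks 0 B C D).rank := by
  let M := Matrix.fromBlocks (0 : Matrix m m F) B C D
  let π : (m ⊕ n → F) →ₗ[F] (m → F) := LinearMap.pi fun i => LinearMap.proj (Sum.inl i)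
  let ρ := π.domRestrict (LinearMap.range M.mulVecLin)
  have h1 := LinearMap.finrank_range_add_finrank_ker ρ
  have h2 : finrank F (LinearMap.range B.mulVecLin) ≤ finrank F (LinearMap.range ρ) := by
    apply Submodule.finrank_mono
    rintro _ ⟨q, rfl⟩
    refine ⟨⟨M.mulVec (Sum.elim 0 q), ⟨Sum.elim 0 q, rfl⟩⟩, ?_⟩
    funext i
    simp [ρ, π, M, Matrix.fromBlocks_mulVec]
  have h3 : finrank F (LinearMap.range C.mulVecLin) ≤ finrank F (LinearMap.ker ρ) := by
    let ι : LinearMap.range C.mulVecLin →ₗ[F] LinearMap.ker ρ :=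
      { toFun := fun y => ⟨⟨Sum.elim 0 y.1, by
            obtain ⟨p, hp⟩ := y.2
            refine ⟨Sum.elim p 0, ?_⟩
            rw [← hp]
            simp [M, Matrix.fromBlocks_mulVec]⟩, by
            rw [LinearMap.mem_ker]
            funext i
            simp [ρ, π]⟩
        map_add' := by
          intro y z
          apply Subtype.ext; apply Subtype.ext
          funext i
          rcases i with i | i <;> simp
        map_smul' := by
          intro c y
          apply Subtype.ext; apply Subtype.ext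
          funext i
          rcases i with i | i <;> simp }
    apply LinearMap.finrank_le_finrank_of_injective (f := ι)
    intro y z h
    apply Subtype.ext
    have := congrArg (fun w => (w : LinearMap.range M.mulVecLin).1) (congrArg Subtype.val h)
    funext i
    have := congrFun this (Sum.inr i)
    simpa [ι] using this
  unfold Matrix.rank
  change _ ≤ finrank F (LinearMap.range M.mulVecLin)
  omega

/-! ### The Fano plane -/

/-- Incidence of the Fano plane: `inc l y` says that the point `y` lies on the line `l`. The lines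
are `012, 034, 135, 056, 146, 236, 245`. -/
def inc : Fin 7 → Fin 7 → Bool :=
  ![![true, true, true, false, false, false, false],
    ![true, false, false, true, true, false, false],
    ![false, true, false, true, false, true, false],
    ![true, false, false, false, false, true, true],
    ![false, true, false, false, true, false, true],
    ![false, false, true, true, false, false, true],
    ![false, false, true, false, true, true, false]]

theorem fano_ker (b : Matrix (Fin 7) (Fin 7) ℝ) (hb : ∀ l y, b l y ≠ 0 ↔ inc l y = true) :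
    finrank ℝ (LinearMap.ker b.mulVecLin) ≤ 2 := by
  by_contra hcon
  push Not at hcon
  set K := LinearMap.ker b.mulVecLin with hK
  have hz : ∀ l y, inc l y = false → b l y = 0 := by
    intro l y h
    by_contra h'
    rw [(hb l y).1 h'] at h
    exact absurd h (by simp)
  have hn : ∀ l y, inc l y = true → b l y ≠ 0 := fun l y h => (hb l y).2 h
  have eqs : ∀ q : Fin 7 → ℝ, q ∈ K →
      (b 0 0 * q 0 + b 0 1 * q 1 + b 0 2 * q 2 = 0) ∧
      (b 1 0 * q 0 + b 1 3 * q 3 + b 1 4 * q 4 = 0) ∧
      (b 2 1 * q 1 + b 2 3 * q 3 + b 2 5 * q 5 = 0) ∧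
      (b 3 0 * q 0 + b 3 5 * q 5 + b 3 6 * q 6 = 0) ∧
      (b 4 1 * q 1 + b 4 4 * q 4 + b 4 6 * q 6 = 0) ∧
      (b 5 2 * q 2 + b 5 3 * q 3 + b 5 6 * q 6 = 0) ∧
      (b 6 2 * q 2 + b 6 4 * q 4 + b 6 5 * q 5 = 0) := by
    intro q hq
    have hq' : b.mulVec q = 0 := by simpa [hK] using hq
    have e : ∀ l, ∑ y, b l y * q y = 0 := fun l => by
      have := congrFun hq' l
      simpa [Matrix.mulVec, dotProduct] using this
    refine ⟨?_, ?_, ?_, ?_, ?_, ?_, ?_⟩
    · have := e 0
      rw [Fin.sum_univ_seven, hz 0 3 rfl, hz 0 4 rfl, hz 0 5 rfl, hz 0 6 rfl] at this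
      linarith
    · have := e 1
      rw [Fin.sum_univ_seven, hz 1 1 rfl, hz 1 2 rfl, hz 1 5 rfl, hz 1 6 rfl] at this
      linarith
    · have := e 2
      rw [Fin.sum_univ_seven, hz 2 0 rfl, hz 2 2 rfl, hz 2 4 rfl, hz 2 6 rfl] at this
      linarith
    · have := e 3
      rw [Fin.sum_univ_seven, hz 3 1 rfl, hz 3 2 rfl, hz 3 3 rfl, hz 3 4 rfl] at this
      linarith
    · have := e 4
      rw [Fin.sum_univ_seven, hz 4 0 rfl, hz 4 2 rfl, hz 4 3 rfl, hz 4 5 rfl] at this
      linarith
    · have := e 5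
      rw [Fin.sum_univ_seven, hz 5 0 rfl, hz 5 1 rfl, hz 5 4 rfl, hz 5 5 rfl] at this
      linarith
    · have := e 6
      rw [Fin.sum_univ_seven, hz 6 0 rfl, hz 6 1 rfl, hz 6 3 rfl, hz 6 6 rfl] at this
      linarith
  have n02 := hn 0 2 rfl
  have n14 := hn 1 4 rfl
  have n25 := hn 2 5 rfl
  have n36 := hn 3 6 rfl
  have n35 := hn 3 5 rfl
  have n44 := hn 4 4 rfl
  have n46 := hn 4 6 rfl
  have n52 := hn 5 2 rfl
  have n56 := hn 5 6 rfl
  have n62 := hn 6 2 rfl
  have n64 := hn 6 4 rfl
  have n65 := hn 6 5 rfl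
  have n00 := hn 0 0 rfl
  have n01 := hn 0 1 rfl
  have n13 := hn 1 3 rfl
  have n10 := hn 1 0 rfl
  let φ : K →ₗ[ℝ] (Fin 3 → ℝ) :=
    (LinearMap.pi fun i : Fin 3 => LinearMap.proj ((![0, 1, 3] : Fin 3 → Fin 7) i)) ∘ₗ K.subtype
  have hinj : Function.Injective φ := by
    rw [← LinearMap.ker_eq_bot, LinearMap.ker_eq_bot']
    intro x hx
    obtain ⟨e0, e1, e2, e3, e4, e5, e6⟩ := eqs x.1 x.2
    have h0 : x.1 0 = 0 := by simpa [φ] using congrFun hx 0
    have h1 : x.1 1 = 0 := by simpa [φ] using congrFun hx 1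
    have h3 : x.1 3 = 0 := by simpa [φ] using congrFun hx 2
    rw [h0, h1] at e0
    rw [h0, h3] at e1
    rw [h1, h3] at e2
    have h2 : x.1 2 = 0 := by
      have : b 0 2 * x.1 2 = 0 := by linarith
      exact (mul_eq_zero.1 this).resolve_left n02
    have h4 : x.1 4 = 0 := by
      have : b 1 4 * x.1 4 = 0 := by linarith
      exact (mul_eq_zero.1 this).resolve_left n14
    have h5 : x.1 5 = 0 := by
      have : b 2 5 * x.1 5 = 0 := by linarith
      exact (mul_eq_zero.1 this).resolve_left n25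
    rw [h0, h5] at e3
    have h6 : x.1 6 = 0 := by
      have : b 3 6 * x.1 6 = 0 := by linarith
      exact (mul_eq_zero.1 this).resolve_left n36
    apply Subtype.ext
    funext i
    fin_cases i
    · exact h0
    · exact h1
    · exact h2
    · exact h3
    · exact h4
    · exact h5
    · exact h6
  have hle := LinearMap.finrank_le_finrank_of_injective hinj
  have hfr : finrank ℝ K = finrank ℝ (Fin 3 → ℝ) := by
    rw [Module.finrank_fin_fun] at hle ⊢
    omega
  have hsurj : Function.Surjective φ :=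
    (LinearMap.injective_iff_surjective_of_finrank_eq_finrank hfr).1 hinj
  obtain ⟨u, hu⟩ := hsurj ![1, 0, 0]
  obtain ⟨v, hv⟩ := hsurj ![0, 1, 0]
  obtain ⟨w, hw⟩ := hsurj ![0, 0, 1]
  have u0 : u.1 0 = 1 := by simpa [φ] using congrFun hu 0
  have u1 : u.1 1 = 0 := by simpa [φ] using congrFun hu 1
  have u3 : u.1 3 = 0 := by simpa [φ] using congrFun hu 2
  have v0 : v.1 0 = 0 := by simpa [φ] using congrFun hv 0
  have v1 : v.1 1 = 1 := by simpa [φ] using congrFun hv 1
  have v3 : v.1 3 = 0 := by simpa [φ] using congrFun hv 2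
  have w0 : w.1 0 = 0 := by simpa [φ] using congrFun hw 0
  have w1 : w.1 1 = 0 := by simpa [φ] using congrFun hw 1
  have w3 : w.1 3 = 1 := by simpa [φ] using congrFun hw 2
  -- E1 : b62 b56 b44 = - b64 b52 b46
  have E1 : b 6 2 * b 5 6 * b 4 4 = - (b 6 4 * b 5 2 * b 4 6) := by
    obtain ⟨e0, e1, e2, e3, e4, e5, e6⟩ := eqs u.1 u.2
    rw [u0, u1] at e0
    rw [u1, u3] at e2
    rw [u1] at e4
    rw [u3] at e5
    have h5 : u.1 5 = 0 := by
      have : b 2 5 * u.1 5 = 0 := by linarith
      exact (mul_eq_zero.1 this).resolve_left n25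
    rw [h5] at e6
    have h2 : u.1 2 ≠ 0 := by
      intro h
      rw [h] at e0
      apply n00; linarith
    apply mul_right_cancel₀ h2
    linear_combination (b 5 6 * b 4 4) * e6 - (b 6 4 * b 5 6) * e4 + (b 6 4 * b 4 6) * e5
  have E2 : b 6 2 * b 3 5 * b 5 6 = - (b 6 5 * b 3 6 * b 5 2) := by
    obtain ⟨e0, e1, e2, e3, e4, e5, e6⟩ := eqs v.1 v.2
    rw [v0, v1] at e0
    rw [v0, v3] at e1
    rw [v0] at e3
    rw [v3] at e5
    have h4 : v.1 4 = 0 := by
      have : b 1 4 * v.1 4 = 0 := by linarith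
      exact (mul_eq_zero.1 this).resolve_left n14
    rw [h4] at e6
    have h2 : v.1 2 ≠ 0 := by
      intro h
      rw [h] at e0
      apply n01; linarith
    apply mul_right_cancel₀ h2
    linear_combination (b 3 5 * b 5 6) * e6 - (b 6 5 * b 5 6) * e3 + (b 6 5 * b 3 6) * e5
  have E3 : b 6 4 * b 3 5 * b 4 6 = - (b 6 5 * b 3 6 * b 4 4) := by
    obtain ⟨e0, e1, e2, e3, e4, e5, e6⟩ := eqs w.1 w.2
    rw [w0, w1] at e0
    rw [w0, w3] at e1
    rw [w0] at e3
    rw [w1] at e4
    have h2 : w.1 2 = 0 := by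
      have : b 0 2 * w.1 2 = 0 := by linarith
      exact (mul_eq_zero.1 this).resolve_left n02
    rw [h2] at e6
    have h4 : w.1 4 ≠ 0 := by
      intro h
      rw [h] at e1
      apply n13; linarith
    apply mul_right_cancel₀ h4
    linear_combination (b 3 5 * b 4 6) * e6 - (b 6 5 * b 4 6) * e3 + (b 6 5 * b 3 6) * e4
  have h1 : 2 * (b 6 5 * b 3 6 * b 5 2 * b 4 4) = 0 := by
    linear_combination (-b 3 5) * E1 + (b 4 4) * E2 + (b 5 2) * E3
  have h2 : b 6 5 * b 3 6 * b 5 2 * b 4 4 = 0 := by linarith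
  exact (mul_ne_zero (mul_ne_zero (mul_ne_zero n65 n36) n52) n44) h2

theorem fano_rank (b : Matrix (Fin 7) (Fin 7) ℝ) (hb : ∀ l y, b l y ≠ 0 ↔ inc l y = true) :
    5 ≤ b.rank := by
  have h := fano_ker b hb
  have h2 := rank_add_nullity b
  unfold nullity at h2
  rw [Fintype.card_fin] at h2
  omega

/-- The Fano plane with every line repeated `t` times: the lines `Sum.inl (l, i)` (`i` is the number
of the copy) and the points `Sum.inr y`; a line is adjacent to its three points. -/
def fanoGraph (t : ℕ) : SimpleGraph ((Fin 7 × Fin t) ⊕ Fin 7) where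
  Adj a b := match a, b with
    | Sum.inl l, Sum.inr y => inc l.1 y = true
    | Sum.inr y, Sum.inl l => inc l.1 y = true
    | _, _ => False
  symm := ⟨by
    intro a b h
    match a, b, h with
    | Sum.inl l, Sum.inr y, h => exact h
    | Sum.inr y, Sum.inl l, h => exact h⟩
  loopless := ⟨by
    intro a h
    match a, h with
    | Sum.inl l, h => exact h
    | Sum.inr y, h => exact h⟩

/-! ### Lower bound for the rank of the matrices in `S(G)` -/

theorem rank_ge (t : ℕ) (ht : 9 ≤ t) (A : Matrix ((Fin 7 × Fin t) ⊕ Fin 7) ((Fin 7 × Fin t) ⊕ Fin 7) ℝ)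
    (hA : InS (fanoGraph t) A) : 9 ≤ A.rank := by
  classical
  by_cases h : ∃ l : Fin 7, ∀ i : Fin t, A (Sum.inl (l, i)) (Sum.inl (l, i)) ≠ 0
  · obtain ⟨l, hl⟩ := h
    have hs : A.submatrix (fun i : Fin t => Sum.inl (l, i)) (fun i : Fin t => Sum.inl (l, i)) =
        Matrix.diagonal (fun i : Fin t => A (Sum.inl (l, i)) (Sum.inl (l, i))) := by
      ext i j
      by_cases hij : i = j
      · subst hij; simp
      · rw [Matrix.diagonal_apply_ne _ hij, Matrix.submatrix_apply]
        by_contra hne
        have hne' : (Sum.inl (l, i) : (Fin 7 × Fin t) ⊕ Fin 7) ≠ Sum.inl (l, j) := by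
          intro h; apply hij; simpa using h
        exact (hA.2 _ _ hne').1 hne
    have h1 := Matrix.rank_submatrix_le A (fun i : Fin t => Sum.inl (l, i))
      (fun i : Fin t => Sum.inl (l, i))
    rw [hs, Matrix.rank_diagonal] at h1
    have h2 : Fintype.card {i : Fin t // A (Sum.inl (l, i)) (Sum.inl (l, i)) ≠ 0} = t := by
      rw [Fintype.card_subtype, Finset.filter_true_of_mem (fun i _ => hl i), Finset.card_univ,
        Fintype.card_fin]
    rw [h2] at h1
    omega
  · push Not at h
    choose s hs using h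
    let f : Fin 7 ⊕ Fin 7 → (Fin 7 × Fin t) ⊕ Fin 7 :=
      Sum.elim (fun l => Sum.inl (l, s l)) (fun y => Sum.inr y)
    let B : Matrix (Fin 7) (Fin 7) ℝ := fun l y => A (Sum.inl (l, s l)) (Sum.inr y)
    let D : Matrix (Fin 7) (Fin 7) ℝ := fun y z => A (Sum.inr y) (Sum.inr z)
    have hB : ∀ l y, B l y ≠ 0 ↔ inc l y = true := fun l y => hA.2 _ _ (by simp)
    have hsub : A.submatrix f f = Matrix.fromBlocks 0 B Bᵀ D := by
      ext a b
      rcases a with a | a <;> rcases b with b | b
      · rw [Matrix.submatrix_apply, Matrix.fromBlocks_apply₁₁, Matrix.zero_apply]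
        by_cases hab : a = b
        · subst hab; exact hs a
        · by_contra hne
          have hne' : (Sum.inl (a, s a) : (Fin 7 × Fin t) ⊕ Fin 7) ≠ Sum.inl (b, s b) := by
            intro h
            apply hab
            have := Sum.inl_injective h
            exact congrArg Prod.fst this
          exact (hA.2 _ _ hne').1 hne
      · rfl
      · rw [Matrix.submatrix_apply, Matrix.fromBlocks_apply₂₁, Matrix.transpose_apply]
        exact hA.1.apply _ _
      · rfl
    have h1 := Matrix.rank_submatrix_le A f f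
    rw [hsub] at h1
    have h2 := rank_fromBlocks_ge B Bᵀ D
    rw [Matrix.rank_transpose] at h2
    have h3 := fano_rank B hB
    omega

theorem maxNullity_le (t : ℕ) (ht : 9 ≤ t) : maxNullity (fanoGraph t) + 9 ≤ 7 * t + 7 := by
  classical
  have hcard : Fintype.card ((Fin 7 × Fin t) ⊕ Fin 7) = 7 * t + 7 := by simp
  unfold maxNullity
  rw [← Nat.le_sub_iff_add_le (by omega)]
  have hne : {k | ∃ A : Matrix ((Fin 7 × Fin t) ⊕ Fin 7) ((Fin 7 × Fin t) ⊕ Fin 7) ℝ,
      InS (fanoGraph t) A ∧ nullity A = k}.Nonempty := by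
    refine ⟨_, Matrix.of (fun a b => if (fanoGraph t).Adj a b then (1 : ℝ) else 0), ⟨?_, ?_⟩, rfl⟩
    · ext a b
      simp only [Matrix.transpose_apply, Matrix.of_apply, SimpleGraph.adj_comm]
    · intro a b _
      simp
  apply csSup_le hne
  rintro k ⟨A, hA, rfl⟩
  have h1 := rank_ge t ht A hA
  have h2 := rank_add_nullity A
  rw [hcard] at h2
  omega

/-! ### Lower bound for the zero forcing number, via the field with two elements -/

/-- The incidence matrix of the Fano plane over the field with two elements has rank `4`: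
`inc = P * Q`. -/
def P2 : Matrix (Fin 7) (Fin 4) (ZMod 2) :=
  !![1, 0, 0, 0; 0, 1, 0, 0; 0, 0, 1, 0; 0, 0, 0, 1; 0, 1, 1, 1; 1, 0, 1, 1; 1, 1, 1, 0]

def Q2 : Matrix (Fin 4) (Fin 7) (ZMod 2) :=
  !![1, 1, 1, 0, 0, 0, 0; 1, 0, 0, 1, 1, 0, 0; 0, 1, 0, 1, 0, 1, 0; 1, 0, 0, 0, 0, 1, 1]

theorem PQ (l y : Fin 7) : (P2 * Q2) l y = if inc l y = true then 1 else 0 := by
  revert l y
  decide

/-- The adjacency matrix over the field with two elements. -/
def adj2 (t : ℕ) : Matrix ((Fin 7 × Fin t) ⊕ Fin 7) ((Fin 7 × Fin t) ⊕ Fin 7) (ZMod 2) :=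
  Matrix.fromBlocks 0 (Matrix.of fun l y => (P2 * Q2) l.1 y)
    (Matrix.of fun y l => (P2 * Q2) l.1 y) 0

theorem adj2_pattern (t : ℕ) (a b : (Fin 7 × Fin t) ⊕ Fin 7) (_ : a ≠ b) :
    adj2 t a b ≠ 0 ↔ (fanoGraph t).Adj a b := by
  rcases a with a | a <;> rcases b with b | b
  · simp [adj2, fanoGraph]
  · simp only [adj2, fanoGraph, Matrix.fromBlocks_apply₁₂, Matrix.of_apply, PQ]
    split_ifs with h <;> simp [h]
  · simp only [adj2, fanoGraph, Matrix.fromBlocks_apply₂₁, Matrix.of_apply, PQ]
    split_ifs with h <;> simp [h]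
  · simp [adj2, fanoGraph]

theorem adj2_rank (t : ℕ) : (adj2 t).rank ≤ 8 := by
  let L : Matrix ((Fin 7 × Fin t) ⊕ Fin 7) (Fin 4 ⊕ Fin 4) (ZMod 2) :=
    Matrix.fromBlocks (Matrix.of fun l j => P2 l.1 j) 0 0 Q2ᵀ
  let R : Matrix (Fin 4 ⊕ Fin 4) ((Fin 7 × Fin t) ⊕ Fin 7) (ZMod 2) :=
    Matrix.fromBlocks 0 Q2 (Matrix.of fun j l => P2 l.1 j) 0
  have h : adj2 t = L * R := by
    ext a b
    rcases a with a | a <;> rcases b with b | b
    · simp [adj2, L, R, Matrix.mul_apply]
    · simp [adj2, L, R, Matrix.mul_apply]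
    · simp [adj2, L, R, Matrix.mul_apply, mul_comm]
    · simp [adj2, L, R, Matrix.mul_apply]
  rw [h]
  refine (Matrix.rank_mul_le_left L R).trans ?_
  have := L.rank_le_card_width
  simpa using this

theorem zeroForcing_ge (t : ℕ) : 7 * t + 7 ≤ zeroForcingNumber (fanoGraph t) + 8 := by
  classical
  have hcard : Fintype.card ((Fin 7 × Fin t) ⊕ Fin 7) = 7 * t + 7 := by simp
  have hne : {k | ∃ B : Finset ((Fin 7 × Fin t) ⊕ Fin 7),
      IsZeroForcing (fanoGraph t) B ∧ B.card = k}.Nonempty :=
    ⟨_, Finset.univ, fun v => Filled.base v (Finset.mem_univ v), rfl⟩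
  obtain ⟨B, hB, hBc⟩ := Nat.sInf_mem hne
  have h1 := nullity_le_card (fanoGraph t) B hB (adj2 t) (adj2_pattern t)
  have h2 := rank_add_nullity (adj2 t)
  have h3 := adj2_rank t
  rw [hcard] at h2
  unfold zeroForcingNumber
  rw [← hBc]
  omega

/-! ### Degrees, connectivity -/

theorem deg_three (t : ℕ) (x : Fin 7 × Fin t) :
    {y | (fanoGraph t).Adj (Sum.inl x) y}.ncard = 3 := by
  have h : {y | (fanoGraph t).Adj (Sum.inl x) y} =
      Sum.inr '' {y : Fin 7 | inc x.1 y = true} := by
    ext y
    rcases y with y | y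
    · simp [fanoGraph]
    · simp [fanoGraph]
  rw [h, Set.ncard_image_of_injective _ Sum.inr_injective]
  have : ∀ l : Fin 7, (Finset.univ.filter (fun y => inc l y = true)).card = 3 := by decide
  rw [← this x.1, ← Set.ncard_coe_finset]
  congr 1
  ext y
  simp

theorem connected (t : ℕ) (ht : 1 ≤ t) : (fanoGraph t).Connected := by
  have hpts : ∀ y z : Fin 7, (fanoGraph t).Reachable (Sum.inr y) (Sum.inr z) := by
    intro y z
    have : ∀ y z : Fin 7, ∃ l : Fin 7, inc l y = true ∧ inc l z = true := by decide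
    obtain ⟨l, h1, h2⟩ := this y z
    have a1 : (fanoGraph t).Adj (Sum.inr y) (Sum.inl (l, ⟨0, ht⟩)) := h1
    have a2 : (fanoGraph t).Adj (Sum.inl (l, ⟨0, ht⟩)) (Sum.inr z) := h2
    exact a1.reachable.trans a2.reachable
  have hline : ∀ x : Fin 7 × Fin t, ∃ y : Fin 7, (fanoGraph t).Adj (Sum.inl x) (Sum.inr y) := by
    intro x
    have : ∀ l : Fin 7, ∃ y : Fin 7, inc l y = true := by decide
    obtain ⟨y, hy⟩ := this x.1
    exact ⟨y, hy⟩
  have hall : ∀ a : (Fin 7 × Fin t) ⊕ Fin 7, (fanoGraph t).Reachable a (Sum.inr 0) := by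
    intro a
    rcases a with x | y
    · obtain ⟨y, hy⟩ := hline x
      exact hy.reachable.trans (hpts y 0)
    · exact hpts y 0
  have : Nonempty ((Fin 7 × Fin t) ⊕ Fin 7) := ⟨Sum.inr 0⟩
  exact ⟨fun a b => (hall a).trans (hall b).symm⟩

end Pool.Agent.R372.ZF
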